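import Pool.Agent.Helper17.SV.Stmts
import Pool.Agent.Helper85.SO.BPERM

/-! BP: the permutation of the blocks induced by an automorphism. -/

set_option autoImplicit false

open Finset

namespace Pool.Agent.Helper17.SV

open Pool.Agent.Helper17.SO

theorem st_BP (hINC : Pool.Agent.Helper17.SO.ST_INC) : ST_BP := by
  intro v k lam B h1 hk hkv hS g hB
  obtain ⟨hlk, -, hA, -, -⟩ := hINC v k lam B h1 hk hkv hS
  have hinj := bperm_inj v k lam B h1 hlk hA
  choose p hp using hB
  have pinj : Function.Injective p := by
    intro i j hij
    apply hinj
    apply Finset.image_injective g.injective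
    rw [← hp i, ← hp j, hij]
  have pbij : Function.Bijective p := Finite.injective_iff_bijective.1 pinj
  have hpow : ∀ n : ℕ, ∀ i, B (((Equiv.ofBijective p pbij) ^ n) i) = (B i).image (g ^ n) := by
    intro n
    induction n with
    | zero =>
      intro i
      simp
    | succ n ih =>
      intro i
      rw [pow_succ', Equiv.Perm.mul_apply, Equiv.ofBijective_apply, hp, ih, Finset.image_image,
        pow_succ']
      rfl
  refine ⟨Equiv.ofBijective p pbij, ?_, ?_⟩
  · intro a i
    rw [Equiv.ofBijective_apply, hp]
    exact g.injective.mem_finset_image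
  · intro N hN
    ext1 i
    apply hinj
    rw [hpow, hN]
    simp

end Pool.Agent.Helper17.SV
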