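import Pool.Agent.Helper17.SV.Stmts

/-! DUAL: the dual design. -/

set_option autoImplicit false

open Finset

namespace Pool.Agent.Helper17.SV

theorem dual_det (v n lam : ℕ) (A : Matrix (Fin v) (Fin v) ℤ) (h1 : 1 ≤ n)
    (hA : A * A.transpose = (n : ℤ) • (1 : Matrix (Fin v) (Fin v) ℤ) +
      (lam : ℤ) • Matrix.of (fun _ _ => (1 : ℤ))) : A.det ≠ 0 := by
  intro h
  rw [← Matrix.det_transpose] at h
  obtain ⟨x, hx, hx0⟩ := Matrix.exists_mulVec_eq_zero_iff.2 h
  have e1 : x ⬝ᵥ ((A * A.transpose).mulVec x) = 0 := by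
    rw [← Matrix.mulVec_mulVec, hx0, Matrix.mulVec_zero, dotProduct_zero]
  rw [hA, Matrix.add_mulVec, Matrix.smul_mulVec, Matrix.smul_mulVec, Matrix.one_mulVec,
    dotProduct_add, dotProduct_smul, dotProduct_smul] at e1
  have e2 : x ⬝ᵥ ((Matrix.of (fun _ _ => (1 : ℤ)) : Matrix (Fin v) (Fin v) ℤ).mulVec x) =
      (∑ i, x i) * ∑ i, x i := by
    simp only [dotProduct, Matrix.mulVec, Matrix.of_apply, one_mul]
    rw [Finset.sum_mul]
  rw [e2, smul_eq_mul, smul_eq_mul] at e1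
  have e3 : 0 < x ⬝ᵥ x := by
    obtain ⟨i, hi⟩ := Function.ne_iff.1 hx
    have : x i * x i ≤ ∑ j, x j * x j :=
      Finset.single_le_sum (f := fun j => x j * x j) (fun j _ => mul_self_nonneg (x j))
        (Finset.mem_univ i)
    have h0 : 0 < x i * x i := mul_self_pos.2 hi
    exact lt_of_lt_of_le h0 this
  have h4 : (0 : ℤ) < (n : ℤ) := by exact_mod_cast h1
  have h5 : 0 < (n : ℤ) * (x ⬝ᵥ x) := mul_pos h4 e3
  have h6 : 0 ≤ (lam : ℤ) * ((∑ i, x i) * ∑ i, x i) :=
    mul_nonneg (by positivity) (mul_self_nonneg _)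
  linarith

theorem st_DUAL : ST_DUAL := by
  intro v k n lam A h1 hk hA hr hc
  have hdet := dual_det v n lam A h1 hA
  set J : Matrix (Fin v) (Fin v) ℤ := Matrix.of (fun _ _ => (1 : ℤ)) with hJ
  have hAJ : A * J = (k : ℤ) • J := by
    ext a i
    simp only [Matrix.mul_apply, hJ, Matrix.of_apply, mul_one, Matrix.smul_apply, smul_eq_mul, hr]
  have hJA : J * A = (k : ℤ) • J := by
    ext a i
    simp only [Matrix.mul_apply, hJ, Matrix.of_apply, one_mul, Matrix.smul_apply, smul_eq_mul,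
      mul_one, hc]
  have h0 : A * (A.transpose * A - ((n : ℤ) • (1 : Matrix (Fin v) (Fin v) ℤ) + (lam : ℤ) • J)) =
      0 := by
    rw [Matrix.mul_sub, ← Matrix.mul_assoc, hA, Matrix.add_mul, Matrix.mul_add, Matrix.smul_mul,
      Matrix.smul_mul, Matrix.mul_smul, Matrix.mul_smul, hAJ, hJA, Matrix.one_mul, Matrix.mul_one,
      sub_self]
  have h2 : A.det • (A.transpose * A - ((n : ℤ) • (1 : Matrix (Fin v) (Fin v) ℤ) +
      (lam : ℤ) • J)) = 0 := by
    have h3 := congrArg (fun M => A.adjugate * M) h0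
    simp only [Matrix.mul_zero] at h3
    rw [← Matrix.mul_assoc, Matrix.adjugate_mul, Matrix.smul_mul, Matrix.one_mul] at h3
    exact h3
  have h4 := (smul_eq_zero.1 h2).resolve_left hdet
  exact sub_eq_zero.1 h4

end Pool.Agent.Helper17.SV
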